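import Pool.Agent.N176.OW.Stm3
import Pool.Agent.N176.GP.Up

set_option autoImplicit false

/-!
# Project OW (helper176), UP: upper bound for prime rough parts in all short intervals (by helper999)

The first part of the proof is the proof of `Pool.Agent.N176.GP.cell_up`.
-/

namespace Pool.Agent.N999.OW

open Finset Filter Topology
open Pool.Agent.N176.GP (cnt bexp grow)
open Pool.Agent.N176.OW (S_UP)
open Pool.Agent.H305R2 (roughPart roughPart_prime roughPart_mul SM SM_pos SMz mem_SMz VV ZZ VV_nonneg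
  ZZ_nonneg ZZ_le_exp sum_le_VV sum_rough_eq log_nat_tendsto count_inner tail_le)
open Pool.Agent.W66 (VV_le_log exp_small)

/-- a smooth number has smooth divisors of all sizes -/
lemma exists_dvd {p : ℕ} (hp : 1 ≤ p) {Y : ℝ} (hY : 1 ≤ Y) : ∀ s : ℕ, s ∈ SM p → Y ≤ s →
    ∃ d : ℕ, d ∣ s ∧ (d : ℝ) ≤ Y ∧ Y ≤ d * p := by
  intro s
  induction s using Nat.strong_induction_on with
  | _ s ih =>
    intro hs hYs
    have hs0 : 0 < s := SM_pos hs
    have hpr : (1 : ℝ) ≤ p := by exact_mod_cast hp
    by_cases h1 : s = 1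
    · subst h1
      refine ⟨1, dvd_rfl, by push_cast; exact hY, ?_⟩
      push_cast at hYs ⊢
      linarith
    · have hr := Nat.minFac_prime h1
      have hrs := Nat.minFac_dvd s
      have hrp : s.minFac ≤ p := by
        have h2 := (Nat.mem_smoothNumbers'.1 hs) s.minFac hr hrs
        omega
      obtain ⟨r, hrd⟩ : ∃ r : ℕ, r = s.minFac := ⟨_, rfl⟩
      rw [← hrd] at hr hrs hrp
      obtain ⟨s', hs'⟩ := hrs
      have hs'0 : 0 < s' := by
        rcases Nat.eq_zero_or_pos s' with h | h
        · rw [h, mul_zero] at hs'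
          omega
        · exact h
      have hlt : s' < s := by
        rw [hs']
        have := hr.two_le
        nlinarith
      have hs'd : s' ∣ s := ⟨r, by rw [mul_comm]; exact hs'⟩
      have hs'm : s' ∈ SM p := Nat.mem_smoothNumbers_of_dvd hs hs'd
      rcases le_or_gt (s' : ℝ) Y with h3 | h3
      · refine ⟨s', hs'd, h3, hYs.trans ?_⟩
        have h4 : (s : ℝ) = r * s' := by exact_mod_cast hs'
        rw [h4, mul_comm]
        exact mul_le_mul_of_nonneg_left (by exact_mod_cast hrp) (Nat.cast_nonneg _)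
      · obtain ⟨d, hd1, hd2, hd3⟩ := ih s' hlt hs'm h3.le
        exact ⟨d, hd1.trans hs'd, hd2, hd3⟩

/-- multiples in an interval -/
lemma card_mult {d : ℕ} (hd : 0 < d) (A B : ℕ) (hAB : A ≤ B) :
    ((Ioc A B).filter (fun n => d ∣ n)).card ≤ (B - A) / d + 1 := by
  have h1 := Nat.Ioc_filter_dvd_card_eq_div B d
  have h2 := Nat.Ioc_filter_dvd_card_eq_div A d
  have h3 : (Ioc 0 A).filter (fun n => d ∣ n) ∪ (Ioc A B).filter (fun n => d ∣ n) =
      (Ioc 0 B).filter (fun n => d ∣ n) := by
    rw [← filter_union, Ioc_union_Ioc_eq_Ioc (Nat.zero_le _) hAB]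
  have h4 : Disjoint ((Ioc 0 A).filter (fun n => d ∣ n)) ((Ioc A B).filter (fun n => d ∣ n)) := by
    rw [Finset.disjoint_left]
    intro x hx hx'
    rw [mem_filter, mem_Ioc] at hx hx'
    omega
  have h5 := card_union_of_disjoint h4
  rw [h3, h1, h2] at h5
  have hdiv : B / d ≤ A / d + ((B - A) / d + 1) := by
    have h1 : B = A + (B - A) := by omega
    conv_lhs => rw [h1]
    rw [Nat.div_le_iff_le_mul_add_pred hd]
    have h2 := Nat.div_add_mod A d
    have h3 := Nat.div_add_mod (B - A) d
    have h4 := Nat.mod_lt A hd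
    have h5 := Nat.mod_lt (B - A) hd
    have h6 : d * (A / d + ((B - A) / d + 1)) = d * (A / d) + d * ((B - A) / d) + d := by ring
    rw [h6]
    omega
  omega

/-- the decay of the number of integers with a large smooth part -/
lemma decay' {b : ℕ} (hb : 2 ≤ b) : ∀ᶠ p : ℕ in atTop, ∀ z : ℕ, 2 * z ≤ p →
    (Real.exp (((p : ℝ) - z) * Real.log b / 2) / p) ^ (-(1 / 2) : ℝ) * ZZ p ≤
      (Real.log p / p) ^ 2 := by
  have hL0 : 0 < Real.log b := Real.log_pos (by exact_mod_cast hb)
  filter_upwards [exp_small (c := Real.log b / 16) (by positivity),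
    ZZ_le_exp (c := Real.log b / 32) (by positivity), grow (Real.log b / 32) 1 (by positivity),
    eventually_ge_atTop 1] with p hsm hZ hg hp1 z hz
  have hzr : (2 : ℝ) * z ≤ p := by exact_mod_cast hz
  have hp1r : (1 : ℝ) ≤ p := by exact_mod_cast hp1
  have hp0 : (0 : ℝ) < p := by linarith
  have hE : 0 < Real.exp (((p : ℝ) - z) * Real.log b / 2) := Real.exp_pos _
  have h1 : (Real.exp (((p : ℝ) - z) * Real.log b / 2) / p) ^ (-(1 / 2) : ℝ) ≤
      Real.exp (-(Real.log b / 8 * p)) * Real.exp (Real.log b / 32 * p) := by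
    rw [Real.div_rpow hE.le hp0.le, ← Real.exp_mul, div_eq_mul_inv]
    apply mul_le_mul _ _ (by positivity) (by positivity)
    · rw [Real.exp_le_exp]
      nlinarith
    · rw [← Real.rpow_neg hp0.le]
      calc (p : ℝ) ^ (- -(1 / 2) : ℝ) ≤ (p : ℝ) ^ (2 : ℝ) :=
            Real.rpow_le_rpow_of_exponent_le hp1r (by norm_num)
        _ = (p : ℝ) ^ 2 := by norm_cast
        _ = 1 * (p : ℝ) ^ 2 := by ring
        _ ≤ _ := hg
  calc (Real.exp (((p : ℝ) - z) * Real.log b / 2) / p) ^ (-(1 / 2) : ℝ) * ZZ p
      ≤ (Real.exp (-(Real.log b / 8 * p)) * Real.exp (Real.log b / 32 * p)) *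
        Real.exp (Real.log b / 32 * p) := mul_le_mul h1 hZ (ZZ_nonneg p) (by positivity)
    _ = Real.exp (-(Real.log b / 16 * p)) := by
        rw [← Real.exp_add, ← Real.exp_add]
        congr 1
        ring
    _ ≤ _ := hsm

/-- **UP.** -/
theorem up : S_UP := by
  classical
  intro b hb
  obtain ⟨C0, hC01, hBT⟩ := Pool.Agent.Helper601.brun_titchmarsh
  obtain ⟨C1, hC1, hV⟩ := VV_le_log
  have hL0 : 0 < Real.log b := Real.log_pos (by exact_mod_cast hb)
  set L := Real.log b with hL
  obtain ⟨P, hP⟩ := ((decay' hb).and (hV.and ((grow (L / 4) 1 (by positivity)).and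
    ((log_nat_tendsto.eventually_ge_atTop 1).and (eventually_ge_atTop 2))))).exists_forall_of_atTop
  refine ⟨8 * C0 * C1 / L + 2, by positivity, P, fun p hp z hz j hj1 => ?_⟩
  obtain ⟨hdec, hVp, hg, hlog1, hp2⟩ := hP p hp
  have hp2r : (2 : ℝ) ≤ p := by exact_mod_cast hp2
  have hp0 : (0 : ℝ) < p := by linarith
  have hzp : z ≤ p := by omega
  have hHr : ((b ^ (p - z) : ℕ) : ℝ) = Real.exp (((p : ℝ) - z) * Real.log b) := by
    push_cast
    rw [bexp hb, Nat.cast_sub hzp]
  have hzr : (2 : ℝ) * z ≤ p := by exact_mod_cast hz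
  have hz0 : (0 : ℝ) ≤ z := Nat.cast_nonneg z
  set H := b ^ (p - z) with hHdef
  have hHpos : 0 < H := by positivity
  have hH0 : (0 : ℝ) < H := by exact_mod_cast hHpos
  have hHA : H ≤ j * H := Nat.le_mul_of_pos_left _ hj1
  set A := j * H with hA
  set B := A + H - 1 with hB
  set S := Real.exp (((p : ℝ) - z) * L / 2) with hS
  have hS0 : 0 < S := Real.exp_pos _
  have hSS : S * S = H := by rw [hS, hHr, ← Real.exp_add]; congr 1; ring
  have hpz : 0 ≤ (p : ℝ) - z := by linarith
  have hS1 : (1 : ℝ) ≤ S := Real.one_le_exp (by positivity)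
  have hSH : S ≤ H := by
    rw [← hSS]
    exact le_mul_of_one_le_right hS0.le hS1
  have e : Ico (j * b ^ (p - z)) ((j + 1) * b ^ (p - z)) = Ioc (A - 1) B := by
    ext x
    have h1 : (j + 1) * b ^ (p - z) = A + H := by rw [hA, hHdef]; ring
    rw [h1, mem_Ico, mem_Ioc]
    have : j * b ^ (p - z) = A := rfl
    rw [this]
    omega
  have hdiv : ∀ s q : ℕ, s ∈ SM p → q.Prime → p < q → s * q / roughPart p (s * q) = s := by
    intro s q hs hq hpq
    rw [roughPart_mul hs hq hpq, Nat.mul_div_cancel _ hq.pos]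
  -- the part with a small smooth factor
  have h1 : (((Ioc (A - 1) B).filter (fun n => (roughPart p n).Prime ∧
      ((n / roughPart p n : ℕ) : ℝ) < S)).card : ℝ) ≤ 8 * C0 * H / (p * L) * VV p := by
    have h2 : (((Ioc (A - 1) B).filter (fun n => (roughPart p n).Prime ∧
      ((n / roughPart p n : ℕ) : ℝ) < S)).card : ℝ) =
        ∑ m ∈ (Ioc (A - 1) B).filter (fun m => (roughPart p m).Prime),
          (if ((m / roughPart p m : ℕ) : ℝ) < S then (1 : ℝ) else 0) := by
      rw [← Finset.sum_filter, Finset.filter_filter, Finset.sum_const, nsmul_eq_mul, mul_one]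
    rw [h2, sum_rough_eq]
    calc _ ≤ ∑ s ∈ (SMz p (B : ℝ)).filter (fun s : ℕ => (s : ℝ) < S), 8 * C0 * H / (p * L) * (s : ℝ)⁻¹ := by
          rw [Finset.sum_filter]
          refine Finset.sum_le_sum fun s hs => ?_
          have hs' := (mem_SMz (Nat.cast_nonneg _)).1 hs
          have hsn := SM_pos hs'.1
          have hs0 : (0 : ℝ) < s := by exact_mod_cast hsn
          have h3 : ∀ q ∈ (Ioc ((A - 1) / s) (B / s)).filter (fun q => q.Prime ∧ p < q),
              (if ((s * q / roughPart p (s * q) : ℕ) : ℝ) < S then (1 : ℝ) else 0) =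
              if (s : ℝ) < S then (1 : ℝ) else 0 := by
            intro q hq
            rw [mem_filter] at hq
            rw [hdiv s q hs'.1 hq.2.1 hq.2.2]
          rw [Finset.sum_congr rfl h3]
          split_ifs with hsS
          · rw [Finset.sum_const, nsmul_eq_mul, mul_one]
            have hD : B - (A - 1) = H := by omega
            obtain ⟨_, hc2⟩ := count_inner hBT p (A - 1) B s hsn (by omega)
            rw [hD] at hc2
            have hHs : S ≤ (H : ℝ) / s := by
              rw [le_div_iff₀ hs0, ← hSS]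
              exact mul_le_mul_of_nonneg_left hsS.le hS0.le
            have hHs1 : 1 ≤ H / s := by
              rw [Nat.one_le_div_iff hsn]
              have : (1 : ℝ) ≤ (H : ℝ) / s := hS1.trans hHs
              rw [le_div_iff₀ hs0, one_mul] at this
              exact_mod_cast this
            refine (hc2 (by omega)).trans ?_
            have hup : ((H / s + 1 : ℕ) : ℝ) ≤ 2 * (H / s) := by
              push_cast
              have := @Nat.cast_div_le ℝ _ _ _ H s
              have : (1 : ℝ) ≤ (H : ℝ) / s := hS1.trans hHs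
              linarith
            have hlow : S ≤ ((H / s + 1 : ℕ) : ℝ) := by
              have h5 : (H : ℝ) / s < ((H / s : ℕ) : ℝ) + 1 := by
                rw [div_lt_iff₀ hs0]
                have := Nat.lt_mul_div_succ H hsn
                have h6 : (H : ℝ) < ((s * (H / s + 1) : ℕ) : ℝ) := by exact_mod_cast this
                push_cast at h6
                linarith
              push_cast
              linarith
            have hlog : (p : ℝ) * L / 4 ≤ Real.log ((H / s + 1 : ℕ) : ℝ) := by
              calc (p : ℝ) * L / 4 ≤ ((p : ℝ) - z) * L / 2 := by nlinarith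
                _ = Real.log S := by rw [hS, Real.log_exp]
                _ ≤ _ := Real.log_le_log hS0 hlow
            have hpL : 0 < (p : ℝ) * L / 4 := by positivity
            calc C0 * ((H / s + 1 : ℕ) : ℝ) / Real.log ((H / s + 1 : ℕ) : ℝ) ≤
                C0 * (2 * (H / s)) / ((p : ℝ) * L / 4) := by
                  gcongr
              _ = _ := by field_simp; ring
          · simp
      _ = 8 * C0 * H / (p * L) * ∑ s ∈ (SMz p (B : ℝ)).filter (fun s : ℕ => (s : ℝ) < S), (s : ℝ)⁻¹ := by
          rw [Finset.mul_sum]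
      _ ≤ _ := by
          refine mul_le_mul_of_nonneg_left ?_ (by positivity)
          refine sum_le_VV p _ fun s hs => ?_
          rw [mem_filter, mem_SMz (Nat.cast_nonneg _)] at hs
          exact hs.1.1
  -- the part with a large smooth factor
  have h2 : (((Ioc (A - 1) B).filter (fun n => (roughPart p n).Prime ∧
      S ≤ ((n / roughPart p n : ℕ) : ℝ))).card : ℝ) ≤ 2 * H * (Real.log p / p) ^ 2 := by
    set D := (SMz p S).filter (fun d : ℕ => S / p ≤ (d : ℝ)) with hDdef
    have hsub : (Ioc (A - 1) B).filter (fun n => (roughPart p n).Prime ∧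
        S ≤ ((n / roughPart p n : ℕ) : ℝ)) ⊆
        D.biUnion (fun d => (Ioc (A - 1) B).filter (fun n => d ∣ n)) := by
      intro n hn
      rw [mem_filter] at hn
      obtain ⟨hn1, hn2, hn3⟩ := hn
      obtain ⟨_, s, hs, hns⟩ := roughPart_prime hn2
      have hsd : n / roughPart p n = s := by
        conv_lhs => rw [hns]
        rw [roughPart_mul hs hn2 (roughPart_prime hn2).1]
        exact Nat.mul_div_cancel _ hn2.pos
      rw [hsd] at hn3
      obtain ⟨d, hd1, hd2, hd3⟩ := exists_dvd (by omega) hS1 s hs hn3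
      rw [mem_biUnion]
      refine ⟨d, ?_, ?_⟩
      · rw [hDdef, mem_filter, mem_SMz hS0.le]
        refine ⟨⟨Nat.mem_smoothNumbers_of_dvd hs hd1, hd2⟩, ?_⟩
        rw [div_le_iff₀ hp0]
        exact hd3
      · rw [mem_filter]
        refine ⟨hn1, hd1.trans ⟨roughPart p n, hns⟩⟩
    have hcard : (((Ioc (A - 1) B).filter (fun n => (roughPart p n).Prime ∧
        S ≤ ((n / roughPart p n : ℕ) : ℝ))).card : ℝ) ≤ ∑ d ∈ D, 2 * H * (d : ℝ)⁻¹ := by
      have h3 : ((Ioc (A - 1) B).filter (fun n => (roughPart p n).Prime ∧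
        S ≤ ((n / roughPart p n : ℕ) : ℝ))).card ≤
          ∑ d ∈ D, ((Ioc (A - 1) B).filter (fun n => d ∣ n)).card :=
        (card_le_card hsub).trans card_biUnion_le
      refine le_trans (Nat.cast_le.2 h3) ?_
      rw [Nat.cast_sum]
      refine sum_le_sum fun d hd => ?_
      rw [hDdef, mem_filter, mem_SMz hS0.le] at hd
      have hd0 : 0 < d := SM_pos hd.1.1
      have hd0r : (0 : ℝ) < d := by exact_mod_cast hd0
      have h4 := card_mult hd0 (A - 1) B (by omega)
      have hD : B - (A - 1) = H := by omega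
      rw [hD] at h4
      have h5 : (((Ioc (A - 1) B).filter (fun n => d ∣ n)).card : ℝ) ≤ ((H / d + 1 : ℕ) : ℝ) := by
        exact_mod_cast h4
      refine h5.trans ?_
      push_cast
      have h6 := @Nat.cast_div_le ℝ _ _ _ H d
      have h7 : (1 : ℝ) ≤ (H : ℝ) / d := by
        rw [le_div_iff₀ hd0r, one_mul]
        exact hd.1.2.trans hSH
      have h8 : 2 * (H : ℝ) * (d : ℝ)⁻¹ = 2 * (H / d) := by
        rw [div_eq_mul_inv]
        ring
      rw [h8]
      linarith
    refine hcard.trans ?_
    rw [← mul_sum]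
    apply mul_le_mul_of_nonneg_left _ (by positivity)
    have h9 := tail_le p (z := S / p) (by positivity) D (fun d hd => by
      rw [hDdef, mem_filter, mem_SMz hS0.le] at hd
      exact ⟨hd.1.1, hd.2⟩)
    exact h9.trans (hdec z hz)
  have h3 : (cnt b z j p : ℝ) ≤ 8 * C0 * H / (p * L) * VV p + 2 * H * (Real.log p / p) ^ 2 := by
    unfold cnt
    rw [e]
    have hsub : (Ioc (A - 1) B).filter (fun n => (roughPart p n).Prime) ⊆
        (Ioc (A - 1) B).filter (fun n => (roughPart p n).Prime ∧ ((n / roughPart p n : ℕ) : ℝ) < S) ∪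
        (Ioc (A - 1) B).filter (fun n => (roughPart p n).Prime ∧ S ≤ ((n / roughPart p n : ℕ) : ℝ)) := by
      intro n hn
      rw [mem_filter] at hn
      rw [mem_union, mem_filter, mem_filter]
      rcases lt_or_ge ((n / roughPart p n : ℕ) : ℝ) S with h | h
      · left; exact ⟨hn.1, hn.2, h⟩
      · right; exact ⟨hn.1, hn.2, h⟩
    have h4 := (Finset.card_le_card hsub).trans (Finset.card_union_le _ _)
    have h5 : (((Ioc (A - 1) B).filter (fun n => (roughPart p n).Prime)).card : ℝ) ≤
        (((Ioc (A - 1) B).filter (fun n => (roughPart p n).Prime ∧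
          ((n / roughPart p n : ℕ) : ℝ) < S)).card : ℝ) +
        (((Ioc (A - 1) B).filter (fun n => (roughPart p n).Prime ∧
          S ≤ ((n / roughPart p n : ℕ) : ℝ))).card : ℝ) := by exact_mod_cast h4
    linarith
  have hlp0 : 0 ≤ Real.log p := Real.log_natCast_nonneg p
  have hle1 : Real.log p / p ≤ 1 := by
    rw [div_le_one hp0]
    exact (Real.log_le_sub_one_of_pos hp0).trans (by linarith)
  have hq0 : 0 ≤ Real.log p / p := by positivity
  have hHb : (b : ℝ) ^ (p - z) = H := by rw [hHdef]; push_cast; rfl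
  rw [hHb]
  calc (cnt b z j p : ℝ) ≤ 8 * C0 * H / (p * L) * VV p + 2 * H * (Real.log p / p) ^ 2 := h3
    _ ≤ 8 * C0 * H / (p * L) * (C1 * Real.log p) + 2 * H * (Real.log p / p) := by
        have h6 : (Real.log p / p) ^ 2 ≤ Real.log p / p := by nlinarith
        gcongr
    _ = _ := by field_simp

end Pool.Agent.N999.OW
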